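import Pool.Agent.R919.AH.Main

/-!
# Decomposition of absolutely Hodge classes
-/

set_option linter.unusedSectionVars false
set_option autoImplicit false

namespace Pool.Agent.R919.AH

open Matrix Pool.Agent.R919.FE Pool.Agent.R919

section lin

/-- Elements of a product of two spaces of functions, in terms of a basis of the second one. -/
theorem mem_mul_basis {Ω : Type} [Finite Ω] (M N : Submodule ℚ (Ω → ℚ)) :
    ∃ (n : ℕ) (b : Fin n → Ω → ℚ), LinearIndependent ℚ b ∧ (∀ k, b k ∈ N) ∧
      ∀ c ∈ M * N, ∃ x : Fin n → Ω → ℚ, (∀ k, x k ∈ M) ∧ c = ∑ k, x k * b k := by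
  classical
  have : FiniteDimensional ℚ N := inferInstance
  let bs := Module.finBasis ℚ N
  refine ⟨Module.finrank ℚ N, fun k => (bs k : Ω → ℚ), ?_, fun k => (bs k).2, fun c hc => ?_⟩
  · exact bs.linearIndependent.map' N.subtype (Submodule.ker_subtype N)
  · refine Submodule.mul_induction_on hc (fun a ha d hd => ?_) (fun a d ha hd => ?_)
    · refine ⟨fun k => bs.repr ⟨d, hd⟩ k • a, fun k => Submodule.smul_mem _ _ ha, ?_⟩
      have h1 := congrArg Subtype.val (bs.sum_repr ⟨d, hd⟩)
      rw [Submodule.coe_sum] at h1
      simp only [Submodule.coe_smul] at h1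
      conv_lhs => rw [← h1]
      rw [Finset.mul_sum]
      refine Finset.sum_congr rfl fun k _ => ?_
      rw [smul_mul_assoc, mul_smul_comm]
    · obtain ⟨x, hx, rfl⟩ := ha
      obtain ⟨y, hy, rfl⟩ := hd
      refine ⟨fun k => x k + y k, fun k => Submodule.add_mem _ (hx k) (hy k), ?_⟩
      rw [← Finset.sum_add_distrib]
      exact Finset.sum_congr rfl fun k _ => by rw [add_mul]

/-- Linearly independent functions have dual functionals. -/
theorem exists_dual_fun {Ω : Type} [Fintype Ω] {n : ℕ} {b : Fin n → Ω → ℚ}
    (hb : LinearIndependent ℚ b) : ∃ lam : Fin n → Ω → ℚ,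
      ∀ k l, ∑ w, lam k w * b l w = if k = l then 1 else 0 := by
  classical
  have h1 : ∃ φ : (Ω → ℚ) →ₗ[ℚ] (Fin n → ℚ), ∀ l, φ (b l) = Pi.single l 1 := by
    let g := hb.repr
    obtain ⟨φ, hφ⟩ := LinearMap.exists_extend (p := Submodule.span ℚ (Set.range b))
      ((Finsupp.linearEquivFunOnFinite ℚ ℚ (Fin n)).toLinearMap ∘ₗ hb.repr)
    refine ⟨φ, fun l => ?_⟩
    have h2 := LinearMap.congr_fun hφ ⟨b l, Submodule.subset_span ⟨l, rfl⟩⟩
    simp only [LinearMap.comp_apply, Submodule.subtype_apply] at h2
    rw [h2]
    have h3 : hb.repr ⟨b l, Submodule.subset_span ⟨l, rfl⟩⟩ = Finsupp.single l 1 :=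
      hb.repr_eq_single l _ rfl
    simp only [LinearEquiv.coe_coe]
    rw [h3]
    funext k
    simp [Finsupp.single_apply, Pi.single_apply, eq_comm]
  obtain ⟨φ, hφ⟩ := h1
  refine ⟨fun k w => φ (Pi.single w 1) k, fun k l => ?_⟩
  have h2 : b l = ∑ w, b l w • (Pi.single w 1 : Ω → ℚ) := by
    funext w
    rw [Finset.sum_apply, Finset.sum_eq_single w]
    · simp
    · intro w' _ hw
      rw [Pi.smul_apply, Pi.single_eq_of_ne (Ne.symm hw), smul_zero]
    · intro h
      exact absurd (Finset.mem_univ w) h
  have h3 := congrFun (hφ l) k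
  rw [h2, map_sum, Finset.sum_apply] at h3
  simp only [map_smul, Pi.smul_apply, smul_eq_mul] at h3
  calc ∑ w, φ (Pi.single w 1) k * b l w = ∑ w, b l w * φ (Pi.single w 1) k :=
        Finset.sum_congr rfl fun w _ => mul_comm _ _
    _ = (Pi.single l 1 : Fin n → ℚ) k := h3
    _ = if k = l then 1 else 0 := by rw [Pi.single_apply]

end lin

variable {J : Type} [DecidableEq J] {B : J → Type} [∀ j, Fintype (B j)]
  [∀ j, DecidableEq (B j)] (V : ∀ j, HodgeStructure (B j)) (C : Conjugate B)
  {κ : Type} [Fintype κ] [DecidableEq κ] (f : κ → J)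

/-- The coordinates of `I` at the factors with index `o`, and those of `I'` at the other ones. -/
def mixo (o : J) (I I' : ∀ x, B (f x)) : ∀ x, B (f x) := fun x => if f x = o then I x else I' x

variable {f} in
theorem mixo_update {o : J} {x : κ} (hx : f x = o) (I I' : ∀ x, B (f x)) (b : B (f x)) :
    mixo f o (Function.update I x b) I' = Function.update (mixo f o I I') x b := by
  funext y
  by_cases hy : y = x
  · subst hy
    rw [mixo, if_pos hx, Function.update_self, Function.update_self]
  · rw [Function.update_of_ne hy, mixo, mixo, Function.update_of_ne hy]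

/-- **The coefficients of an absolutely Hodge class are absolutely Hodge classes.** -/
theorem coeff_abs {o : J} {W : Finset J} (ho : o ∉ W) (hW : ∀ x, f x = o ∨ f x ∈ W) {n : ℕ}
    {b b' : Fin n → (∀ x, B (f x)) → ℚ} (hbi : LinearIndependent ℚ b)
    (hb : ∀ k, b k ∈ MM.hodgeIn V f W) (hb' : ∀ k, b' k ∈ MM.hodgeIn C.V' f W)
    (hbb : ∀ k a, wcmp C f W a (cst f _ (b k)) = cst f _ (b' k))
    {x : Fin n → (∀ x, B (f x)) → ℚ} (hx : ∀ k, x k ∈ hodgeClassesOf V f o)
    {c' : (∀ x, B (f x)) → ℚ} (hc' : c' ∈ hodgeClasses C.V' f)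
    (hcc : Corresponds C f (∑ k, x k * b k) c') (k : Fin n) :
    ∃ x' ∈ hodgeClassesOf C.V' f o, CorrespondsOf C f o (x k) x' := by
  classical
  by_cases hA : Nonempty C.A
  swap
  · exact ⟨0, Submodule.zero_mem _, fun a => (hA ⟨a⟩).elim⟩
  obtain ⟨a0⟩ := hA
  -- independence
  have hinj : ∀ a, Function.Injective (wcmp C f W a) := by
    intro a
    have h1 : GT.tact (fun x => if f x ∈ W then (C.M a (f x))⁻¹ else 1) * wcmp C f W a = 1 := by
      rw [wcmp, ← GT.tact_mul, ← GT.tact_one]
      congr 1
      funext x
      by_cases h : f x ∈ W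
      · rw [if_pos h, if_pos h, Matrix.nonsing_inv_mul _
          ((Matrix.isUnit_iff_isUnit_det _).1 (C.unit a (f x)))]
      · rw [if_neg h, if_neg h, mul_one]
    intro c d hcd
    have h2 := congrArg (GT.tact (fun x => if f x ∈ W then (C.M a (f x))⁻¹ else 1)) hcd
    rw [← Module.End.mul_apply, ← Module.End.mul_apply, h1] at h2
    exact h2
  have hcinj : ∀ (F : Type) [Field F] [CharZero F], Function.Injective (cst (B := B) f F) := by
    intro F _ _ c d hcd
    funext I
    have h1 := congrFun hcd I
    exact Rat.cast_injective h1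
  have hbi' : LinearIndependent ℚ b' := by
    rw [Fintype.linearIndependent_iff] at hbi ⊢
    intro g hg
    refine hbi g ?_
    apply hcinj (C.R a0)
    apply hinj a0
    have h1 : ∀ e : Fin n → (∀ x, B (f x)) → ℚ, cst f (C.R a0) (∑ k, g k • e k) =
        ∑ k, (g k : C.R a0) • cst f (C.R a0) (e k) := by
      intro e
      funext I
      simp [cst]
    have h0 : cst f (C.R a0) (0 : (∀ x, B (f x)) → ℚ) = 0 := by
      funext I
      simp [cst]
    rw [h1, map_sum, h0, map_zero]
    simp only [map_smul, hbb]
    rw [← h1, hg, h0]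
  obtain ⟨lam, hlam⟩ := exists_dual_fun hbi'
  -- the coefficients
  set x' : Fin n → (∀ x, B (f x)) → ℚ := fun k I => ∑ w, lam k w * c' (mixo f o I w) with hx'
  have hdepb : ∀ k I I', b' k (mixo f o I I') = b' k I' := by
    intro k I I'
    refine (hb' k).1 _ _ fun y hy => ?_
    rw [mixo, if_neg]
    rintro h
    exact ho (h ▸ hy)
    -- the full comparison
  have hfull : ∀ a, cst f (C.R a) c' = ∑ l, GT.tact (fun x => if f x = o then C.M a (f x) else 1)
        (cst f (C.R a) (x l)) * cst f (C.R a) (b' l) := by
      intro a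
      have h2 : GT.tact (fun x => C.M a (f x)) (cst f (C.R a) (∑ k, x k * b k)) =
          cst f (C.R a) c' := by
        funext I
        exact hcc a I
      have h3 : (GT.tact (fun x => C.M a (f x)) : Module.End (C.R a) ((∀ x, B (f x)) → C.R a)) =
          GT.tact (fun x => if f x = o then C.M a (f x) else 1) * wcmp C f W a := by
        rw [wcmp, ← GT.tact_mul]
        congr 1
        funext x
        rcases hW x with h | h
        · have h4 : f x ∉ W := fun h' => ho (h ▸ h')
          rw [if_pos h, if_neg h4, mul_one]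
        · have h4 : f x ≠ o := fun h' => ho (h' ▸ h)
          rw [if_neg h4, if_pos h, one_mul]
      rw [← h2, h3]
      have h5 : cst f (C.R a) (∑ k, x k * b k) =
          ∑ k, cst f (C.R a) (x k) * cst f (C.R a) (b k) := by
        funext I
        simp [cst]
      rw [h5, map_sum]
      refine Finset.sum_congr rfl fun l _ => ?_
      rw [Module.End.mul_apply, wcmp, MM.tact_mul_fun (fun x => f x ∈ W) _
        (fun x hx => if_neg hx) (c := cst f _ (x l)) (d := cst f _ (b l))]
      · have h6 : GT.tact (fun x => if f x ∈ W then C.M a (f x) else 1) (cst f _ (b l)) =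
            cst f _ (b' l) := hbb l a
        rw [h6, mul_comm (cst f (C.R a) (x l)), MM.tact_mul_fun (fun x => f x = o) _
          (fun x hx => if_neg hx) (c := cst f _ (b' l)) (d := cst f _ (x l)), mul_comm]
        intro I I' h
        rw [cst, cst]
        congr 1
        refine (hb' l).1 _ _ fun y hy => h y ?_
        rintro rfl
        exact ho hy
      · intro I I' h
        rw [cst, cst]
        congr 1
        refine (hx l).1 _ _ fun y hy => h y ?_
        rw [hy]
        exact ho
  have key : ∀ a l, GT.tact (fun x => if f x = o then C.M a (f x) else 1) (cst f (C.R a) (x l)) =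
      cst f (C.R a) (x' l) := by
    intro a l
    -- dependence on the coordinates
    have hdep : ∀ l I w, GT.tact (fun x => if f x = o then C.M a (f x) else 1)
        (cst f (C.R a) (x l)) (mixo f o I w) =
        GT.tact (fun x => if f x = o then C.M a (f x) else 1) (cst f (C.R a) (x l)) I := by
      intro l I w
      have h7 : ∀ (N : ∀ x, Matrix (B (f x)) (B (f x)) (C.R a)) (hN : ∀ x, f x ≠ o → N x = 1)
          (c : (∀ x, B (f x)) → C.R a) (hc : ∀ I I', (∀ x, f x = o → I x = I' x) → c I = c I')
          (I I' : ∀ x, B (f x)), (∀ x, f x = o → I x = I' x) → GT.tact N c I = GT.tact N c I' := by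
        intro N hN c hc I I' hII
        have h8 : ∀ d : (∀ x, B (f x)) → C.R a, GT.tact N (d * c) = GT.tact N (d * c) := fun _ => rfl
        -- use the indicator of the other coordinates
        have h9 := congrFun (GT.loc (fun x => f x = o) N (fun x hx => hN x hx) c I) I
        have h10 := congrFun (GT.loc (fun x => f x = o) N (fun x hx => hN x hx) c I') I
        have e1 : (fun a => c (GT.mixP (fun x => f x = o) a I)) =
            fun a => c (GT.mixP (fun x => f x = o) a I') := by
          funext a
          refine hc _ _ fun x hx => ?_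
          simp [GT.mixP, hx]
        rw [e1] at h9
        rw [h9] at h10
        have e2 : GT.mixP (fun x => f x = o) I I = I := by
          funext x
          simp [GT.mixP]
        have e3 : GT.mixP (fun x => f x = o) I I' = I' := by
          funext x
          by_cases hx : f x = o
          · simp [GT.mixP, hx, hII x hx]
          · simp [GT.mixP, hx]
        beta_reduce at h10
        rw [e2, e3] at h10
        exact h10
      refine h7 _ (fun x hx => if_neg hx) _ (fun I I' h => ?_) _ _ (fun y hy => ?_)
      · rw [cst, cst]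
        congr 1
        exact (hx l).1 _ _ h
      · rw [mixo, if_pos hy]
    funext I
    have h11 : (cst f (C.R a) (x' l)) I = ∑ w, (lam l w : C.R a) *
        (cst f (C.R a) c') (mixo f o I w) := by
      simp [cst, hx']
    rw [h11, hfull a]
    simp only [Finset.sum_apply, Pi.mul_apply, hdep]
    have h12 : ∀ m w, cst f (C.R a) (b' m) (mixo f o I w) = (b' m w : C.R a) := by
      intro m w
      rw [cst, hdepb]
    simp only [h12, Finset.mul_sum]
    rw [Finset.sum_comm]
    have h13 : ∀ m, ∑ w, (lam l w : C.R a) * (GT.tact (fun x => if f x = o then C.M a (f x) else 1)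
        (cst f (C.R a) (x m)) I * (b' m w : C.R a)) =
        GT.tact (fun x => if f x = o then C.M a (f x) else 1) (cst f (C.R a) (x m)) I *
          ((∑ w, lam l w * b' m w : ℚ) : C.R a) := by
      intro m
      push_cast
      rw [Finset.mul_sum]
      refine Finset.sum_congr rfl fun w _ => ?_
      ring
    simp only [h13, hlam]
    rw [Finset.sum_eq_single l]
    · rw [if_pos rfl, Rat.cast_one, mul_one]
    · intro m _ hm
      rw [if_neg (Ne.symm hm), Rat.cast_zero, mul_zero]
    · intro h
      exact absurd (Finset.mem_univ l) h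
  have hx'dep : ∀ l I I', (∀ x, f x = o → I x = I' x) → x' l I = x' l I' := by
    intro l I I' h
    rw [hx']
    beta_reduce
    refine Finset.sum_congr rfl fun w _ => ?_
    congr 2
    funext y
    by_cases hy : f y = o
    · rw [mixo, mixo, if_pos hy, if_pos hy, h y hy]
    · rw [mixo, mixo, if_neg hy, if_neg hy]
  have hsum : c' = ∑ l, x' l * b' l := by
    apply hcinj (C.R a0)
    rw [hfull a0]
    funext I
    simp only [key, Finset.sum_apply, Pi.mul_apply]
    simp [cst]
  refine ⟨x' k, ⟨hx'dep k, fun I => ?_⟩, fun a I => congrFun (key a k) I⟩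
  -- the operator of the Hodge structure
  have hz : ∀ K : ∀ x, B (f x), ∑ x with f x = o, ∑ b, (C.V' (f x)).D (K x) b *
      (c' (Function.update K x b) : ℂ) = 0 := by
    intro K
    have h1 := hc' K
    have h2 : ∑ x, ∑ b, (C.V' (f x)).D (K x) b * (c' (Function.update K x b) : ℂ) =
        ∑ x with f x = o, ∑ b, (C.V' (f x)).D (K x) b * (c' (Function.update K x b) : ℂ) +
        ∑ x with f x ∈ W, ∑ b, (C.V' (f x)).D (K x) b * (c' (Function.update K x b) : ℂ) := by
      rw [← Finset.sum_filter_add_sum_filter_not Finset.univ (fun x => f x = o)]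
      congr 1
      refine Finset.sum_congr ?_ fun _ _ => rfl
      ext x
      simp only [Finset.mem_filter, Finset.mem_univ, true_and]
      constructor
      · intro h
        exact (hW x).resolve_left h
      · intro h h'
        exact ho (h' ▸ h)
    have h3 : ∑ x with f x ∈ W, ∑ b, (C.V' (f x)).D (K x) b *
        (c' (Function.update K x b) : ℂ) = 0 := by
      have h4 : ∀ x, f x ∈ W → ∀ b, (c' (Function.update K x b) : ℂ) =
          ∑ l, (x' l K : ℂ) * (b' l (Function.update K x b) : ℂ) := by
        intro x hx b
        rw [hsum]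
        simp only [Finset.sum_apply, Pi.mul_apply]
        push_cast
        refine Finset.sum_congr rfl fun l _ => ?_
        congr 2
        refine hx'dep l _ _ fun y hy => ?_
        have hyx : y ≠ x := by
          rintro rfl
          exact ho (hy ▸ hx)
        rw [Function.update_of_ne hyx]
      have h5 : ∑ x with f x ∈ W, ∑ b, (C.V' (f x)).D (K x) b *
          (c' (Function.update K x b) : ℂ) = ∑ l, (x' l K : ℂ) *
            ∑ x with f x ∈ W, ∑ b, (C.V' (f x)).D (K x) b *
              (b' l (Function.update K x b) : ℂ) := by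
        simp only [Finset.mul_sum]
        rw [Finset.sum_comm]
        refine Finset.sum_congr rfl fun x hx => ?_
        rw [Finset.sum_comm]
        refine Finset.sum_congr rfl fun b _ => ?_
        rw [h4 x (Finset.mem_filter.1 hx).2 b, Finset.mul_sum]
        refine Finset.sum_congr rfl fun l _ => ?_
        ring
      rw [h5]
      refine Finset.sum_eq_zero fun l _ => ?_
      rw [(hb' l).2 K, mul_zero]
    rw [h2, h3, add_zero] at h1
    exact h1
  have h6 : ∑ x with f x = o, ∑ b, (C.V' (f x)).D (I x) b *
      (x' k (Function.update I x b) : ℂ) = ∑ w, (lam k w : ℂ) *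
        ∑ x with f x = o, ∑ b, (C.V' (f x)).D (mixo f o I w x) b *
          (c' (Function.update (mixo f o I w) x b) : ℂ) := by
    simp only [Finset.mul_sum]
    rw [Finset.sum_comm]
    refine Finset.sum_congr rfl fun x hx => ?_
    have hxo := (Finset.mem_filter.1 hx).2
    rw [Finset.sum_comm]
    refine Finset.sum_congr rfl fun b _ => ?_
    rw [hx']
    beta_reduce
    push_cast
    rw [Finset.mul_sum]
    refine Finset.sum_congr rfl fun w _ => ?_
    rw [mixo_update hxo, show mixo f o I w x = I x from if_pos hxo]
    ring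
  rw [h6]
  exact Finset.sum_eq_zero fun w _ => by rw [hz, mul_zero]

end Pool.Agent.R919.AH
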