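import Pool.Agent.R919.FE.Defs2

/-!
# Conjugates of families of Hodge structures, comparison isomorphisms: definitions
-/

set_option autoImplicit false

namespace Pool.Agent.R919.AH

open Matrix Pool.Agent.R919.FE

/-- A conjugate of the cohomology of a family of varieties `X j`, by an automorphism `σ` of `ℂ`: the
polarized Hodge structures `V' j` of the conjugate varieties `σ X j`, and a set `A` of comparisons,
with coefficients in fields `R a` of characteristic zero. The columns of the matrix `M a j` are the
coordinates, in a basis of the rational cohomology `V' j` of `σ X j`, of the transports of the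
elements of a basis of the rational cohomology of `X j`, by the comparison isomorphism of `X j` with
algebraic de Rham cohomology (coefficients `ℂ`) or with `ℓ`-adic cohomology (coefficients `ℚ_ℓ`), the
isomorphism given by `σ`, and the comparison isomorphism of `σ X j`. The Tate twists are
distributed: in degree `b` the matrix contains the factor `u ^ (b / 2)`, where `u` is the number
that compares the twists `ℚ (1)`, and `R a` contains a square root of `u`. -/
structure Conjugate {J : Type} (B : J → Type) [∀ j, Fintype (B j)]
    [∀ j, DecidableEq (B j)] where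
  /-- the Hodge structures of the conjugate varieties -/
  V' : ∀ j, HodgeStructure (B j)
  /-- the set of the comparisons -/
  A : Type
  /-- the fields of coefficients -/
  R : A → Type
  [field : ∀ a, Field (R a)]
  [char : ∀ a, CharZero (R a)]
  /-- the matrices of the comparisons -/
  M : ∀ a j, Matrix (B j) (B j) (R a)
  /-- the comparisons are isomorphisms -/
  unit : ∀ a j, IsUnit (M a j)

attribute [instance] Conjugate.field Conjugate.char

variable {J : Type} {B : J → Type} [∀ j, Fintype (B j)] [∀ j, DecidableEq (B j)]
  {κ : Type} [Fintype κ] [DecidableEq κ]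

/-- The rational tensor `c'` corresponds to the rational tensor `c`, for all comparisons. -/
def Corresponds (C : Conjugate B) (f : κ → J) (c c' : (∀ x, B (f x)) → ℚ) : Prop :=
  ∀ (a : C.A) (I : ∀ x, B (f x)),
    ∑ I' : ∀ x, B (f x), (∏ x, C.M a (f x) (I x) (I' x)) * (c I' : C.R a) = (c' I : C.R a)

/-- The rational tensor `c'` in the factors with index `j` corresponds to the rational tensor `c` in
these factors, for all comparisons. -/
def CorrespondsOf [DecidableEq J] (C : Conjugate B) (f : κ → J) (j : J)
    (c c' : (∀ x, B (f x)) → ℚ) : Prop :=
  ∀ (a : C.A) (I : ∀ x, B (f x)),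
    ∑ I' : ∀ x, B (f x), (∏ x, (if f x = j then C.M a (f x) else 1) (I x) (I' x)) *
      (c I' : C.R a) = (c' I : C.R a)

/-- All Hodge classes in the tensor product of the `V (f x)` correspond to Hodge classes in the
conjugate tensor product, for all comparisons at once. -/
def AbsHodge (V : ∀ j, HodgeStructure (B j)) (C : Conjugate B) (f : κ → J) : Prop :=
  ∀ c ∈ hodgeClasses V f, ∃ c' ∈ hodgeClasses C.V' f, Corresponds C f c c'

/-- All Hodge classes in tensor powers of `V j` (in all tensor products, the classes in the factors
with index `j`) correspond to Hodge classes in the conjugate tensor powers, for all comparisons at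
once. -/
def AbsHodgeAt [DecidableEq J] (V : ∀ j, HodgeStructure (B j)) (C : Conjugate B) (j : J) : Prop :=
  ∀ (κ : Type) [Fintype κ] [DecidableEq κ] (f : κ → J), ∀ c ∈ hodgeClassesOf V f j,
    ∃ c' ∈ hodgeClassesOf C.V' f j, CorrespondsOf C f j c c'

/-- The absolutely Hodge classes in the tensor product of the `V (f x)`: the Hodge classes which
correspond to Hodge classes in all conjugate tensor products in the set `𝒞`. -/
def absClasses (V : ∀ j, HodgeStructure (B j)) (𝒞 : Set (Conjugate B)) (f : κ → J) :
    Set ((∀ x, B (f x)) → ℚ) :=
  {c | c ∈ hodgeClasses V f ∧ ∀ C ∈ 𝒞, ∃ c' ∈ hodgeClasses C.V' f, Corresponds C f c c'}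

/-- The absolutely Hodge classes in the factors with index `j`. -/
def absClassesOf [DecidableEq J] (V : ∀ j, HodgeStructure (B j)) (𝒞 : Set (Conjugate B))
    (f : κ → J) (j : J) : Set ((∀ x, B (f x)) → ℚ) :=
  {c | c ∈ hodgeClassesOf V f j ∧
    ∀ C ∈ 𝒞, ∃ c' ∈ hodgeClassesOf C.V' f j, CorrespondsOf C f j c c'}

/-- Spaces `alg f W`, for all finite families `f` of indices and finite sets `W` of indices. In the
intended use `alg f W` is the space of the classes of algebraic cycles in the tensor product of the
factors with indices in `W`, as functions which do not depend on the coordinates of the other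
factors. The spaces are closed under products. -/
structure CycleSystem {J : Type} [DecidableEq J] (B : J → Type) [∀ j, Fintype (B j)]
    [∀ j, DecidableEq (B j)] where
  /-- the spaces -/
  alg : ∀ {κ : Type} [Fintype κ] [DecidableEq κ] (f : κ → J), Finset J →
    Submodule ℚ ((∀ x, B (f x)) → ℚ)
  /-- the unit (for the empty product) -/
  one : ∀ {κ : Type} [Fintype κ] [DecidableEq κ] (f : κ → J), 1 ∈ alg f ∅
  /-- they are closed under products -/
  mul : ∀ {κ : Type} [Fintype κ] [DecidableEq κ] (f : κ → J) (W W' : Finset J), Disjoint W W' →
    ∀ c ∈ alg f W, ∀ d ∈ alg f W', c * d ∈ alg f (W ∪ W')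
  /-- only the indices which occur matter -/
  congr : ∀ {κ : Type} [Fintype κ] [DecidableEq κ] (f : κ → J) (W W' : Finset J),
    (∀ x, f x ∈ W ↔ f x ∈ W') → alg f W = alg f W'

end Pool.Agent.R919.AH
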