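import Pool.Agent.R919.AH.Dec

/-!
# Absolutely Hodge classes on products with all but few members of a family: the main theorems
-/

set_option linter.unusedSectionVars false
set_option autoImplicit false

namespace Pool.Agent.R919.AH

open Matrix Pool.Agent.R919.FE Pool.Agent.R919

variable {J : Type} [DecidableEq J] {B : J → Type} [∀ j, Fintype (B j)]
  [∀ j, DecidableEq (B j)] (V : ∀ j, HodgeStructure (B j)) (𝒞 : Set (Conjugate B))

theorem prod_le {κ : Type} [Fintype κ] [DecidableEq κ] (f : κ → J) (o : J) :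
    ∏ j ∈ Finset.univ.image f, hodgeClassesOf V f j ≤
      hodgeClassesOf V f o * ∏ j ∈ (Finset.univ.image f).erase o, hodgeClassesOf V f j := by
  by_cases h : o ∈ Finset.univ.image f
  · rw [Finset.mul_prod_erase _ _ h]
  · rw [Finset.erase_eq_of_notMem h]
    intro c hc
    rw [← one_mul c]
    refine Submodule.mul_mem_mul ⟨fun _ _ _ => rfl, fun I => ?_⟩ hc
    refine Finset.sum_eq_zero fun x hx => (h ?_).elim
    rw [← (Finset.mem_filter.1 hx).2]
    exact Finset.mem_image_of_mem f (Finset.mem_univ x)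

/-- **Decomposition of the absolutely Hodge classes.** -/
theorem decomp {κ : Type} [Fintype κ] [DecidableEq κ] (f : κ → J) (o : J)
    (hA : ∀ C ∈ 𝒞, ∀ j ∈ Finset.univ.image f, j ≠ o → AbsHodgeAt V C j)
    (h : hodgeClasses V f ≤ ∏ j ∈ Finset.univ.image f, hodgeClassesOf V f j)
    {c : (∀ x, B (f x)) → ℚ} (hc : c ∈ absClasses V 𝒞 f) :
    c ∈ Submodule.span ℚ (absClassesOf V 𝒞 f o) *
      ∏ j ∈ (Finset.univ.image f).erase o, hodgeClassesOf V f j := by
  set W := (Finset.univ.image f).erase o with hWdef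
  obtain ⟨n, b, hbi, hb, hex⟩ := mem_mul_basis (hodgeClassesOf V f o)
    (∏ j ∈ W, hodgeClassesOf V f j)
  obtain ⟨x, hx, rfl⟩ := hex c (prod_le V f o (h hc.1))
  have ho : o ∉ W := Finset.notMem_erase o _
  have hW : ∀ x, f x = o ∨ f x ∈ W := by
    intro x
    by_cases h1 : f x = o
    · exact Or.inl h1
    · exact Or.inr (Finset.mem_erase.2 ⟨h1, Finset.mem_image_of_mem f (Finset.mem_univ x)⟩)
  refine Submodule.sum_mem _ fun k _ => Submodule.mul_mem_mul (Submodule.subset_span ?_) (hb k)
  refine ⟨hx k, fun C hC => ?_⟩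
  have h1 : ∀ k, b k ∈ absIn V C f W := fun k => abs_prod V C f W (fun j hj =>
    hA C hC j (Finset.mem_of_mem_erase hj) (Finset.ne_of_mem_erase hj)) (hb k)
  choose h2 b' hb' hbb using h1
  obtain ⟨c', hc', hcc⟩ := hc.2 C hC
  exact coeff_abs V C f ho hW hbi h2 hb' hbb hx hc' hcc k

theorem alg_prod (Z : CycleSystem B) {κ : Type} [Fintype κ] [DecidableEq κ] (f : κ → J)
    (W : Finset J) (h : ∀ j ∈ W, hodgeClassesOf V f j ≤ Z.alg f {j}) :
    ∏ j ∈ W, hodgeClassesOf V f j ≤ Z.alg f W := by
  induction W using Finset.induction_on with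
  | empty =>
    rw [Finset.prod_empty, Submodule.one_le]
    exact Z.one f
  | insert j W hj ih =>
    rw [Finset.prod_insert hj, Submodule.mul_le]
    intro c hc d hd
    rw [← Finset.singleton_union]
    exact Z.mul f {j} W (Finset.disjoint_singleton_left.2 hj) c
      (h j (Finset.mem_insert_self j W) hc) d
      (ih (fun i hi => h i (Finset.mem_insert_of_mem hi)) hd)

/-- All Hodge classes on the tensor powers of the `V j`, for `j` not in `S` and different from `o`,
are absolutely Hodge classes, for all conjugates in the set `𝒞`. -/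
def DeligneFor (o : J) (S : Finset J) : Prop := ∀ C ∈ 𝒞, ∀ j ∉ S, j ≠ o → AbsHodgeAt V C j

/-- The absolutely Hodge classes in the tensor product of the `V (f x)` are sums of products of
absolutely Hodge classes in the factors with index `o` and of Hodge classes in the factors with one
other index. -/
def AbsDecomposes (o : J) {κ : Type} [Fintype κ] [DecidableEq κ] (f : κ → J) : Prop :=
  ∀ c ∈ absClasses V 𝒞 f, c ∈ Submodule.span ℚ (absClassesOf V 𝒞 f o) *
    ∏ j ∈ (Finset.univ.image f).erase o, hodgeClassesOf V f j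

/-- All Hodge classes in the tensor product of the `V (f x)` are absolutely Hodge classes. -/
def HodgeIsAbs {κ : Type} [Fintype κ] [DecidableEq κ] (f : κ → J) : Prop :=
  ∀ c ∈ hodgeClasses V f, c ∈ absClasses V 𝒞 f

/-- All Hodge classes in the factors with index `o` are absolutely Hodge classes, for all finite
families `f`. -/
def HodgeIsAbsAt (o : J) : Prop :=
  ∀ (κ : Type) [Fintype κ] [DecidableEq κ] (f : κ → J), ∀ c ∈ hodgeClassesOf V f o,
    c ∈ absClassesOf V 𝒞 f o

/-- **The main theorem.** -/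
theorem main {o : J} (h : IndependentFamily V o) :
    ∃ S : Finset J, o ∉ S ∧ 2 * S.card ≤ Fintype.card (B o) ∧
      (∀ (κ : Type) [Fintype κ] [DecidableEq κ] (f : κ → J), (∀ x, f x ∉ S) →
        hodgeClasses V f ≤ ∏ j ∈ Finset.univ.image f, hodgeClassesOf V f j) ∧
      ∀ 𝒞 : Set (Conjugate B), DeligneFor V 𝒞 o S →
        (∀ (κ : Type) [Fintype κ] [DecidableEq κ] (f : κ → J), (∀ x, f x ∉ S) →
          AbsDecomposes V 𝒞 o f) ∧
        (HodgeIsAbsAt V 𝒞 o → ∀ (κ : Type) [Fintype κ] [DecidableEq κ] (f : κ → J),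
          (∀ x, f x ∉ S) → HodgeIsAbs V 𝒞 f) ∧
        ∀ Z : CycleSystem B,
          (∀ (κ : Type) [Fintype κ] [DecidableEq κ] (f : κ → J), absClassesOf V 𝒞 f o ⊆
            Z.alg f {o}) →
          (∀ (κ : Type) [Fintype κ] [DecidableEq κ] (f : κ → J), ∀ j ∉ S, j ≠ o →
            hodgeClassesOf V f j ≤ Z.alg f {j}) →
          ∀ (κ : Type) [Fintype κ] [DecidableEq κ] (f : κ → J), (∀ x, f x ∉ S) →
            absClasses V 𝒞 f ⊆ Z.alg f (Finset.univ.image f) := by
  obtain ⟨S, hS1, hS2, hS3⟩ := few h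
  have himg : ∀ {κ : Type} [Fintype κ] [DecidableEq κ] (f : κ → J), (∀ x, f x ∉ S) →
      ∀ j ∈ Finset.univ.image f, j ∉ S := by
    intro κ _ _ f hf j hj
    obtain ⟨x, _, rfl⟩ := Finset.mem_image.1 hj
    exact hf x
  refine ⟨S, hS1, hS2, fun κ _ _ f hf => hS3 κ f hf, fun 𝒞 hD => ?_⟩
  have hdec : ∀ (κ : Type) [Fintype κ] [DecidableEq κ] (f : κ → J), (∀ x, f x ∉ S) →
      AbsDecomposes V 𝒞 o f := fun κ _ _ f hf c hc =>
    decomp V 𝒞 f o (fun C hC j hj hjo => hD C hC j (himg f hf j hj) hjo) (hS3 κ f hf) hc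
  refine ⟨hdec, fun hO κ _ _ f hf c hc => ⟨hc, fun C hC => ?_⟩, fun Z h1 h2 κ _ _ f hf c hc => ?_⟩
  · refine abs_all V C f (fun j hj => ?_) (hS3 κ f hf) c hc
    by_cases hjo : j = o
    · subst hjo
      intro κ' _ _ f' c' hc'
      exact (hO κ' f' c' hc').2 C hC
    · exact hD C hC j (himg f hf j hj) hjo
  · have h3 := hdec κ f hf c hc
    have h4 : Submodule.span ℚ (absClassesOf V 𝒞 f o) *
        ∏ j ∈ (Finset.univ.image f).erase o, hodgeClassesOf V f j ≤
          Z.alg f ({o} ∪ (Finset.univ.image f).erase o) := by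
      rw [Submodule.mul_le]
      intro x hx y hy
      refine Z.mul f _ _ (Finset.disjoint_singleton_left.2 (Finset.notMem_erase o _)) x ?_ y ?_
      · exact Submodule.span_le.2 (h1 κ f) hx
      · exact alg_prod V Z f _ (fun j hj => h2 κ f j (himg f hf j (Finset.mem_of_mem_erase hj))
          (Finset.ne_of_mem_erase hj)) hy
    have h5 := h4 h3
    rw [Z.congr f _ (Finset.univ.image f)] at h5
    · exact h5
    · intro x
      have hx : f x ∈ Finset.univ.image f := Finset.mem_image_of_mem f (Finset.mem_univ x)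
      constructor
      · exact fun _ => hx
      · intro _
        by_cases hxo : f x = o
        · rw [hxo]
          exact Finset.mem_union_left _ (Finset.mem_singleton_self o)
        · exact Finset.mem_union_right _ (Finset.mem_erase.2 ⟨hxo, hx⟩)

end Pool.Agent.R919.AH
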