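import Pool.Agent.R919.AH.Main
import Pool.Agent.R919.AH.Fin

/-!
# Fullness of the Hodge realization on tannakian categories generated by motives
-/

set_option linter.unusedSectionVars false
set_option autoImplicit false

namespace Pool.Agent.R919.AH

open Matrix Pool.Agent.R919.FE Pool.Agent.R919

variable {J : Type} {B : J → Type} [∀ j, Fintype (B j)]
  [∀ j, DecidableEq (B j)]

/-- The Hodge realization is full on the tannakian category generated by the motives `M j` with `j` in
`W`, with Hodge realizations `V j`: all Hodge classes in tensor products of the `V j` with `j` in `W`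
are absolutely Hodge (these are the morphisms from twists of the unit object; by polarizations all
duals are twists). -/
def FullOn (V : ∀ j, HodgeStructure (B j)) (𝒞 : Set (Conjugate B)) (W : Set J) : Prop :=
  ∀ (κ : Type) [Fintype κ] [DecidableEq κ] (f : κ → J), (∀ x, f x ∈ W) →
    ∀ c ∈ hodgeClasses V f, c ∈ absClasses V 𝒞 f

variable [DecidableEq J] {κ : Type} [Fintype κ] [DecidableEq κ]

section restrict

variable (f : κ → J) (j : J) (d : ∀ x, B (f x))

/-- The point with given coordinates of index `j`; the other coordinates are those of `d`. -/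
def glue (K : ∀ x : {x // f x = j}, B (f x)) : ∀ x, B (f x) :=
  fun x => if h : f x = j then K ⟨x, h⟩ else d x

theorem glue_of {K : ∀ x : {x // f x = j}, B (f x)} {x : κ} (h : f x = j) :
    glue f j d K x = K ⟨x, h⟩ := dif_pos h

theorem glue_update (K : ∀ x : {x // f x = j}, B (f x)) (x : {x // f x = j}) (b : B (f x)) :
    glue f j d (Function.update K x b) = Function.update (glue f j d K) x b := by
  funext y
  by_cases hy : y = x
  · rw [hy, glue_of f j d x.2]
    exact (Function.update_self (β := fun y : {x // f x = j} => B (f y)) x b K).trans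
      (Function.update_self (β := fun x : κ => B (f x)) (x : κ) b (glue f j d K)).symm
  · rw [Function.update_of_ne hy]
    by_cases h : f y = j
    · rw [glue_of f j d h, glue_of f j d h, Function.update_of_ne]
      exact fun h' => hy (by rw [← h'])
    · rw [glue, glue, dif_neg h, dif_neg h]

variable {F : Type} [Field F]

/-- A sum over all points of a function which vanishes unless the coordinates of index
different from `j` are those of `I`. -/
theorem sum_restrict (N : ∀ x, Matrix (B (f x)) (B (f x)) F)
    (c : (∀ x, B (f x)) → F) (hc : ∀ I I' : ∀ x, B (f x), (∀ x, f x = j → I x = I' x) → c I = c I')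
    (I : ∀ x, B (f x)) :
    ∑ I' : ∀ x, B (f x), (∏ x, (if f x = j then N x else 1) (I x) (I' x)) * c I' =
      ∑ K : ∀ x : {x // f x = j}, B (f x), (∏ x : {x // f x = j}, N x (I x) (K x)) *
        c (glue f j d K) := by
  classical
  have hs1 : ∀ (K : ∀ x : {x // f x = j}, B (f x)) (L : ∀ x : {x // ¬ f x = j}, B (f x)) (x : κ)
      (hx : f x = j), (Equiv.piEquivPiSubtypeProd (fun x => f x = j) fun x => B (f x)).symm (K, L) x
        = K ⟨x, hx⟩ := fun K L x hx => dif_pos hx
  have hs2 : ∀ (K : ∀ x : {x // f x = j}, B (f x)) (L : ∀ x : {x // ¬ f x = j}, B (f x)) (x : κ)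
      (hx : ¬ f x = j), (Equiv.piEquivPiSubtypeProd (fun x => f x = j) fun x => B (f x)).symm
        (K, L) x = L ⟨x, hx⟩ := fun K L x hx => dif_neg hx
  rw [← (Equiv.piEquivPiSubtypeProd (fun x => f x = j) fun x => B (f x)).symm.sum_comp
    (fun I' => (∏ x, (if f x = j then N x else 1) (I x) (I' x)) * c I'),
    Fintype.sum_prod_type]
  refine Finset.sum_congr rfl fun K _ => ?_
  rw [Finset.sum_eq_single (fun x : {x // ¬ f x = j} => I x)]
  · have h1 : c ((Equiv.piEquivPiSubtypeProd (fun x => f x = j) fun x => B (f x)).symm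
        (K, fun x => I x)) = c (glue f j d K) :=
      hc _ _ fun x hx => by rw [hs1 _ _ x hx, glue_of f j d hx]
    have h3 : ∏ x, (if f x = j then N x else 1) (I x)
        ((Equiv.piEquivPiSubtypeProd (fun x => f x = j) fun x => B (f x)).symm
          (K, fun x => I x) x) = ∏ x : {x // f x = j}, N x (I x) (K x) := by
      rw [← Fintype.prod_subtype_mul_prod_subtype (fun x => f x = j)]
      have h2 : ∏ x : {x // ¬ f x = j}, (if f x = j then N x else 1) (I x)
          ((Equiv.piEquivPiSubtypeProd (fun x => f x = j) fun x => B (f x)).symm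
            (K, fun x => I x) x) = 1 := by
        refine Finset.prod_eq_one fun x _ => ?_
        rw [hs2 _ _ x x.2, if_neg x.2]
        exact Matrix.one_apply_eq _
      rw [h2, mul_one]
      refine Finset.prod_congr rfl fun x _ => ?_
      rw [hs1 _ _ x x.2, if_pos x.2]
    rw [h1, h3]
  · intro L _ hL
    have : ∃ x : {x // ¬ f x = j}, I x ≠ L x := by
      by_contra h
      push Not at h
      exact hL (funext fun x => (h x).symm)
    obtain ⟨x, hx⟩ := this
    have h4 : (if f x = j then N x else 1) (I x)
        ((Equiv.piEquivPiSubtypeProd (fun x => f x = j) fun x => B (f x)).symm (K, L) x) = 0 := by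
      rw [hs2 _ _ x x.2, if_neg x.2]
      exact Matrix.one_apply_ne hx
    rw [Finset.prod_eq_zero (Finset.mem_univ (x : κ)) h4, zero_mul]
  · intro h
    exact absurd (Finset.mem_univ _) h

theorem hodge_restrict (V : ∀ j, HodgeStructure (B j)) {c : (∀ x, B (f x)) → ℚ}
    (hc : c ∈ hodgeClassesOf V f j) :
    (fun K => c (glue f j d K)) ∈ hodgeClasses V (fun x : {x // f x = j} => f x) := by
  intro K
  have h1 := hc.2 (glue f j d K)
  rw [← h1]
  symm
  rw [Finset.sum_subtype (Finset.univ.filter fun x => f x = j) (p := fun x => f x = j)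
    (fun x => by simp)]
  refine Finset.sum_congr rfl fun x _ => Finset.sum_congr rfl fun b _ => ?_
  have h2 := glue_update f j d K x b
  have h3 : glue f j d K x = K x := glue_of f j d x.2
  rw [h3]
  change _ = (V (f x)).D (K x) b * ((c (glue f j d (Function.update K x b)) : ℚ) : ℂ)
  rw [h2]

theorem hodge_extend (V : ∀ j, HodgeStructure (B j))
    {c : (∀ x : {x // f x = j}, B (f x)) → ℚ}
    (hc : c ∈ hodgeClasses V (fun x : {x // f x = j} => f x)) :
    (fun I : ∀ x, B (f x) => c (fun x => I x)) ∈ hodgeClassesOf V f j := by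
  refine ⟨fun I I' h => congrArg c (funext fun x => h x x.2), fun I => ?_⟩
  have h1 := hc (fun x => I x)
  rw [← h1, Finset.sum_subtype (Finset.univ.filter fun x => f x = j) (p := fun x => f x = j)
    (fun x => by simp)]
  refine Finset.sum_congr rfl fun x _ => Finset.sum_congr rfl fun b _ => ?_
  have h2 : (fun y : {x // f x = j} => Function.update I (x : κ) b y) =
      Function.update (fun y : {x // f x = j} => I y) x b := ?_
  · change (V (f x)).D (I x) b * ((c (fun y : {x // f x = j} => Function.update I (x : κ) b y) : ℚ) :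
      ℂ) = _
    rw [h2]
  funext y
  by_cases hy : y = x
  · subst hy
    rw [Function.update_self, Function.update_self]
  · rw [Function.update_of_ne hy, Function.update_of_ne]
    exact fun h => hy (Subtype.ext h)

end restrict

theorem absHodgeAt_of {V : ∀ j, HodgeStructure (B j)} {𝒞 : Set (Conjugate B)} {j : J}
    (h : FullOn V 𝒞 {j}) {C : Conjugate B} (hC : C ∈ 𝒞) : AbsHodgeAt V C j := by
  intro κ _ _ f c hc
  rcases isEmpty_or_nonempty (∀ x, B (f x)) with he | ⟨⟨d⟩⟩
  · refine ⟨0, Submodule.zero_mem _, fun a I => he.elim I⟩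
  · obtain ⟨_, h2⟩ := h {x // f x = j} (fun x => f x) (fun x => x.2) _
      (hodge_restrict f j d V hc)
    obtain ⟨c', hc', hcc⟩ := h2 C hC
    refine ⟨_, hodge_extend f j C.V' hc', fun a I => ?_⟩
    rw [← hcc a (fun x => I x)]
    exact sum_restrict f j d (fun x => C.M a (f x)) (fun I => (c I : C.R a))
      (fun I I' h => by rw [hc.1 I I' h]) I

/-- **Fullness on the category generated by an arbitrary motive and all but few members of an
independent family.** -/
theorem full (V : ∀ j, HodgeStructure (B j)) {o : J} (h : IndependentFamily V o) :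
    ∃ S : Finset J, o ∉ S ∧ 2 * S.card ≤ Fintype.card (B o) ∧
      ∀ 𝒞 : Set (Conjugate B), (∀ j ∉ S, j ≠ o → FullOn V 𝒞 {j}) →
        (FullOn V 𝒞 {j | j ∉ S} ↔ FullOn V 𝒞 {o}) := by
  obtain ⟨S, hS1, hS2, hS3⟩ := few_abs V h
  refine ⟨S, hS1, hS2, fun 𝒞 hj => ⟨fun hF κ _ _ f hf => hF κ f fun x => ?_,
    fun hO κ _ _ f hf c hc => ⟨hc, fun C hC => ?_⟩⟩⟩
  · rw [Set.mem_singleton_iff.1 (hf x)]
    exact hS1
  · refine hS3 C (fun j hjS => ?_) κ f hf c hc
    by_cases hjo : j = o
    · subst hjo
      exact absHodgeAt_of hO hC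
    · exact absHodgeAt_of (hj j hjS hjo) hC

end Pool.Agent.R919.AH
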