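import Pool.Agent.R919.AH.Defs
import Pool.Agent.R919.FE.Crit
import Pool.Agent.R919.MM.Cmb

/-!
# Absolute Hodge classes on products with all but few members of a family
-/

set_option linter.unusedSectionVars false
set_option autoImplicit false

namespace Pool.Agent.R919.AH

open Matrix Pool.Agent.R919.FE Pool.Agent.R919

variable {J : Type} [DecidableEq J] {B : J → Type} [∀ j, Fintype (B j)]
  [∀ j, DecidableEq (B j)] (V : ∀ j, HodgeStructure (B j)) (C : Conjugate B)
  {κ : Type} [Fintype κ] [DecidableEq κ] (f : κ → J)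

/-- The tensor with coefficients in `F`. -/
def cst (F : Type) [Field F] (c : (∀ x, B (f x)) → ℚ) : (∀ x, B (f x)) → F := fun I => (c I : F)

variable {f} in
theorem cst_mul (F : Type) [Field F] [CharZero F] (c d : (∀ x, B (f x)) → ℚ) :
    cst f F (c * d) = cst f F c * cst f F d := by
  funext I
  simp [cst]

variable {f} in
theorem cst_add (F : Type) [Field F] [CharZero F] (c d : (∀ x, B (f x)) → ℚ) :
    cst f F (c + d) = cst f F c + cst f F d := by
  funext I
  simp [cst]

variable {f} in
theorem cst_smul (F : Type) [Field F] [CharZero F] (r : ℚ) (c : (∀ x, B (f x)) → ℚ) :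
    cst f F (r • c) = (r : F) • cst f F c := by
  funext I
  simp [cst]

/-- The comparison on the factors with indices in `W`. -/
def wcmp (W : Finset J) (a : C.A) : Module.End (C.R a) ((∀ x, B (f x)) → C.R a) :=
  GT.tact fun x => if f x ∈ W then C.M a (f x) else 1

/-- The Hodge classes on the factors with indices in `W` which correspond to Hodge classes. -/
def absIn (W : Finset J) : Submodule ℚ ((∀ x, B (f x)) → ℚ) where
  carrier := {c | c ∈ MM.hodgeIn V f W ∧ ∃ c' ∈ MM.hodgeIn C.V' f W,
    ∀ a, wcmp C f W a (cst f _ c) = cst f _ c'}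
  zero_mem' := by
    refine ⟨Submodule.zero_mem _, 0, Submodule.zero_mem _, fun a => ?_⟩
    have h : cst (B := B) f (C.R a) 0 = 0 := by
      funext I
      simp [cst]
    rw [h, map_zero]
  add_mem' := by
    rintro c d ⟨h1, c', h2, h3⟩ ⟨h4, d', h5, h6⟩
    refine ⟨Submodule.add_mem _ h1 h4, c' + d', Submodule.add_mem _ h2 h5, fun a => ?_⟩
    rw [cst_add, cst_add, map_add, h3, h6]
  smul_mem' := by
    rintro r c ⟨h1, c', h2, h3⟩
    refine ⟨Submodule.smul_mem _ r h1, r • c', Submodule.smul_mem _ r h2, fun a => ?_⟩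
    rw [cst_smul, cst_smul, map_smul, h3]

theorem wcmp_insert {W : Finset J} {j : J} (hj : j ∉ W) (a : C.A) :
    wcmp C f (insert j W) a = GT.tact (fun x => if f x = j then C.M a (f x) else 1) *
      wcmp C f W a := by
  rw [wcmp, wcmp, ← GT.tact_mul]
  congr 1
  funext x
  by_cases h1 : f x = j
  · have h2 : f x ∉ W := fun h => hj (h1 ▸ h)
    rw [if_pos (by rw [h1]; exact Finset.mem_insert_self j W), if_pos h1, if_neg h2, mul_one]
  · by_cases h2 : f x ∈ W
    · rw [if_pos (Finset.mem_insert_of_mem h2), if_neg h1, if_pos h2, one_mul]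
    · rw [if_neg (by simp [h1, h2]), if_neg h1, if_neg h2, one_mul]

theorem abs_mul {W : Finset J} {j : J} (hj : j ∉ W) (hA : AbsHodgeAt V C j)
    {c d : (∀ x, B (f x)) → ℚ} (hc : c ∈ hodgeClassesOf V f j) (hd : d ∈ absIn V C f W) :
    c * d ∈ absIn V C f (insert j W) := by
  obtain ⟨c', hc', hcc⟩ := hA κ f c hc
  obtain ⟨hd1, d', hd', hdd⟩ := hd
  refine ⟨MM.hodge_mul V f hj (Submodule.mul_mem_mul hc hd1), c' * d',
    MM.hodge_mul C.V' f hj (Submodule.mul_mem_mul hc' hd'), fun a => ?_⟩
  rw [wcmp_insert C f hj, Module.End.mul_apply, cst_mul, cst_mul, wcmp,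
    MM.tact_mul_fun (fun x => f x ∈ W) _ (fun x hx => if_neg hx) (c := cst f _ c)
      (d := cst f _ d)]
  · have h1 : GT.tact (fun x => if f x ∈ W then C.M a (f x) else 1) (cst f _ d) =
        cst f _ d' := hdd a
    rw [h1, mul_comm (cst f (C.R a) c), MM.tact_mul_fun (fun x => f x = j) _
      (fun x hx => if_neg hx) (c := cst f _ d') (d := cst f _ c)]
    · have h2 : GT.tact (fun x => if f x = j then C.M a (f x) else 1) (cst f _ c) =
          cst f _ c' := by
        funext I
        exact hcc a I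
      rw [h2, mul_comm]
    · intro I I' h
      rw [cst, cst]
      congr 1
      refine hd'.1 _ _ fun x hx => h x ?_
      rintro rfl
      exact hj hx
  · intro I I' h
    rw [cst, cst]
    congr 1
    refine hc.1 _ _ fun x hx => h x ?_
    rw [hx]
    exact hj

theorem abs_prod (W : Finset J) (hA : ∀ j ∈ W, AbsHodgeAt V C j) :
    ∏ j ∈ W, hodgeClassesOf V f j ≤ absIn V C f W := by
  induction W using Finset.induction_on with
  | empty =>
    rw [Finset.prod_empty, Submodule.one_le]
    have h1 : ∀ V : ∀ j, HodgeStructure (B j), (1 : (∀ x, B (f x)) → ℚ) ∈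
        MM.hodgeIn V f (∅ : Finset J) := fun V => ⟨fun _ _ _ => rfl, fun I => by simp⟩
    refine ⟨h1 V, 1, h1 C.V', fun a => ?_⟩
    rw [wcmp]
    simp only [Finset.notMem_empty, if_false]
    rw [GT.tact_one]
    rfl
  | insert j W hj ih =>
    rw [Finset.prod_insert hj, Submodule.mul_le]
    intro c hc d hd
    exact abs_mul V C f hj (hA j (Finset.mem_insert_self j W)) hc
      (ih (fun i hi => hA i (Finset.mem_insert_of_mem hi)) hd)

theorem abs_all (hA : ∀ j ∈ Finset.univ.image f, AbsHodgeAt V C j)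
    (h : hodgeClasses V f ≤ ∏ j ∈ Finset.univ.image f, hodgeClassesOf V f j) :
    AbsHodge V C f := by
  intro c hc
  obtain ⟨_, c', hc', hcc⟩ := abs_prod V C f _ hA (h hc)
  refine ⟨c', MM.hodge_all C.V' f hc', fun a I => ?_⟩
  have h1 := congrFun (hcc a) I
  rw [wcmp, GT.tact_apply] at h1
  rw [show (c' I : C.R a) = cst f (C.R a) c' I from rfl, ← h1]
  refine Finset.sum_congr rfl fun I' _ => ?_
  congr 1
  refine Finset.prod_congr rfl fun x _ => ?_
  rw [if_pos (Finset.mem_image_of_mem f (Finset.mem_univ x))]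

/-- **The theorem.** -/
theorem few_abs {o : J} (h : IndependentFamily V o) :
    ∃ S : Finset J, o ∉ S ∧ 2 * S.card ≤ Fintype.card (B o) ∧
      ∀ C : Conjugate B, (∀ j ∉ S, AbsHodgeAt V C j) →
        ∀ (κ : Type) [Fintype κ] [DecidableEq κ] (f : κ → J), (∀ x, f x ∉ S) →
          AbsHodge V C f := by
  obtain ⟨S, hS1, hS2, hS3⟩ := few h
  refine ⟨S, hS1, hS2, fun C hA κ _ _ f hf => abs_all V C f (fun j hj => hA j ?_) (hS3 κ f hf)⟩
  obtain ⟨x, _, rfl⟩ := Finset.mem_image.1 hj
  exact hf x

end Pool.Agent.R919.AH
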